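import Mathlib

/-!
MP_8d0d04_lc. Combinatorics on the Cantor space: gaps, clopen codes, sets which are not dominated.
-/

set_option autoImplicit false

namespace Pool.Agent.SF

open Filter Set Cardinal

/-- the Cantor space -/
abbrev C := ℕ → Bool

/-- `x` has no element in `[a n, a (n + 1))` -/
def Gap (a : ℕ → ℕ) (x : C) (n : ℕ) : Prop := ∀ k, a n ≤ k → k < a (n + 1) → x k = false

theorem Gap.mono {a : ℕ → ℕ} {x y : C} {n : ℕ} (h : Gap a x n) (hy : ∀ k, y k = true → x k = true) :
    Gap a y n := by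
  intro k h1 h2
  by_contra h3
  have h4 := hy k (by simpa using h3)
  rw [h k h1 h2] at h4
  exact absurd h4 (by simp)

/-- indices of basic clopen sets -/
abbrev Ix := Σ L : ℕ, Finset (Fin L → Bool)

/-- basic clopen sets -/
def B (i : Ix) : Set C := {x | (fun k : Fin i.1 => x k) ∈ i.2}

theorem B_congr {i : Ix} {x y : C} (h : ∀ k, k < i.1 → x k = y k) : x ∈ B i ↔ y ∈ B i := by
  have : (fun k : Fin i.1 => x k) = fun k : Fin i.1 => y k := funext fun k => h k k.2
  show _ ∈ i.2 ↔ _ ∈ i.2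
  rw [this]

/-- the number of an index -/
noncomputable def idx (i : Ix) : ℕ := Encodable.encode i

theorem idx_inj : Function.Injective idx := Encodable.encode_injective

theorem exists_B {U : Set C} (hU : IsOpen U) (F : Finset C) (hF : (F : Set C) ⊆ U) :
    ∃ i : Ix, (F : Set C) ⊆ B i ∧ B i ⊆ U := by
  classical
  have h1 : ∀ x ∈ F, ∃ L : ℕ, ∀ y : C, (∀ k, k < L → y k = x k) → y ∈ U := by
    intro x hx
    obtain ⟨I, u, hu, hs⟩ := isOpen_pi_iff.1 hU x (hF hx)
    refine ⟨I.sup id + 1, fun y hy => hs ?_⟩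
    intro k hk
    have h2 : k ≤ I.sup id := Finset.le_sup (f := id) hk
    rw [hy k (by omega)]
    exact (hu k hk).2
  choose! L hL using h1
  refine ⟨⟨F.sup L, F.image (fun (x : C) (k : Fin (F.sup L)) => x k)⟩, ?_, ?_⟩
  · intro x hx
    show (fun k : Fin (F.sup L) => x k) ∈ F.image (fun (x : C) (k : Fin (F.sup L)) => x k)
    exact Finset.mem_image_of_mem (fun (x : C) (k : Fin (F.sup L)) => x k) hx
  · intro y hy
    obtain ⟨x, hx, hxy⟩ := Finset.mem_image.1 (show (fun k : Fin (F.sup L) => y k) ∈ _ from hy)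
    refine hL x hx y fun k hk => ?_
    have h3 : k < F.sup L := hk.trans_le (Finset.le_sup hx)
    exact (congrFun hxy ⟨k, h3⟩).symm

/-- codes of sequences of families of open sets -/
abbrev Code := ℕ → Set Ix

/-- the code is a sequence of `ω`-covers of finite sets together with `F` -/
def Good (c : Code) (F : Set C) : Prop :=
  ∀ n m : ℕ, ∃ i ∈ c n, F ⊆ B i ∧ ∀ q : C, (∀ k, m ≤ k → q k = false) → q ∈ B i

theorem exists_seq {c : Code} {F : Set C} (h : Good c F) :
    ∃ (a J : ℕ → ℕ), StrictMono a ∧ ∀ n, ∃ i ∈ c n, idx i ≤ J n ∧ F ⊆ B i ∧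
      ∀ x, Gap a x n → x ∈ B i := by
  choose i hi hF hq using h
  obtain ⟨a, ha⟩ : ∃ a : ℕ → ℕ, ∀ n, a (n + 1) = max (a n + 1) (i n (a n)).1 :=
    ⟨fun n => Nat.rec 0 (fun n r => max (r + 1) (i n r).1) n, fun n => rfl⟩
  refine ⟨a, fun n => idx (i n (a n)), strictMono_nat_of_lt_succ fun n => by rw [ha]; omega,
    fun n => ⟨i n (a n), hi _ _, le_rfl, hF _ _, fun x hx => ?_⟩⟩
  let q : C := fun k => if k < a n then x k else false
  have h1 := hq n (a n) q (fun k hk => by show (if k < a n then x k else false) = false; rw [if_neg (by omega)])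
  refine (B_congr fun k hk => ?_).1 h1
  show (if k < a n then x k else false) = x k
  by_cases h2 : k < a n
  · exact if_pos h2
  · rw [if_neg h2]
    exact (hx k (by omega) (by rw [ha]; omega)).symm

/-- the dominating number -/
noncomputable def dominatingNumber : Cardinal.{0} :=
  sInf {κ | ∃ D : Set (ℕ → ℕ), #D = κ ∧ ∀ g : ℕ → ℕ, ∃ f ∈ D, ∀ᶠ n in atTop, g n ≤ f n}

theorem exists_undom {S : Set (ℕ → ℕ)} (h : #S < dominatingNumber) :
    ∃ f : ℕ → ℕ, ∀ g ∈ S, ∃ᶠ n in atTop, g n < f n := by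
  by_contra hne
  push Not at hne
  have h1 : dominatingNumber ≤ #S := by
    refine csInf_le' ⟨S, rfl, fun g => ?_⟩
    obtain ⟨f, hf, hfg⟩ := hne g
    refine ⟨f, hf, ?_⟩
    simpa [Filter.Frequently] using hfg
  exact absurd h (not_lt.2 h1)

theorem exists_undom_mono {S : Set (ℕ → ℕ)} (h : #S < dominatingNumber) :
    ∃ f : ℕ → ℕ, StrictMono f ∧ (∀ k, k < f k) ∧ ∀ g ∈ S, ∃ᶠ n in atTop, g n < f n := by
  obtain ⟨f, hf⟩ := exists_undom h
  have hsum (k : ℕ) : f k ≤ ∑ j ∈ Finset.range (k + 1), f j :=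
    Finset.single_le_sum (f := f) (fun _ _ => Nat.zero_le _) (by simp)
  refine ⟨fun k => ∑ j ∈ Finset.range (k + 1), f j + k + 1, strictMono_nat_of_lt_succ fun k => ?_,
    fun k => by show k < ∑ j ∈ Finset.range (k + 1), f j + k + 1; omega, fun g hg => (hf g hg).mono fun n hn => ?_⟩
  · have : ∑ j ∈ Finset.range (k + 1 + 1), f j = ∑ j ∈ Finset.range (k + 1), f j + f (k + 1) :=
      Finset.sum_range_succ _ _
    show ∑ j ∈ Finset.range (k + 1), f j + k + 1 < ∑ j ∈ Finset.range (k + 1 + 1), f j + (k + 1) + 1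
    omega
  · have := hsum n
    show g n < ∑ j ∈ Finset.range (n + 1), f j + n + 1
    omega

/-- the least element of an infinite set from `k` on -/
theorem exists_next {N : Set ℕ} (hN : N.Infinite) (k : ℕ) : ∃ n ∈ N, k ≤ n := by
  obtain ⟨n, hn, hk⟩ := hN.exists_gt k
  exact ⟨n, hn, hk.le⟩

theorem exists_gaps (G : Set ((ℕ → ℕ) × Set ℕ)) (h : #G < dominatingNumber)
    (hG : ∀ p ∈ G, StrictMono p.1 ∧ p.2.Infinite) :
    ∃ x : C, {k | x k = true}.Infinite ∧ ∀ p ∈ G, {n | n ∈ p.2 ∧ Gap p.1 x n}.Infinite := by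
  classical
  have h0 : ∀ p ∈ G, ∀ k : ℕ, ∃ n n' : ℕ, n ∈ p.2 ∧ n' ∈ p.2 ∧ k ≤ n ∧ n < n' := by
    intro p hp k
    obtain ⟨n, hn, hk⟩ := exists_next (hG p hp).2 k
    obtain ⟨n', hn', hk'⟩ := (hG p hp).2.exists_gt n
    exact ⟨n, n', hn, hn', hk, hk'⟩
  choose! n1 n2 h1 h2 h3 h4 using h0
  have hS : #((fun p : (ℕ → ℕ) × Set ℕ => fun k => p.1 (n2 p k + 1)) '' G) < dominatingNumber :=
    mk_image_le.trans_lt h
  obtain ⟨f, hfm, hfk, hf⟩ := exists_undom_mono hS
  let o : ℕ → ℕ := fun i => f^[i] 0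
  have ho (i : ℕ) : o (i + 1) = f (o i) := Function.iterate_succ_apply' f i 0
  have hom : StrictMono o := strictMono_nat_of_lt_succ fun i => by rw [ho]; exact hfk _
  refine ⟨fun k => decide (k ∈ Set.range o), ?_, fun p hp => ?_⟩
  · have : {k | (decide (k ∈ Set.range o)) = true} = Set.range o := by
      ext k; simp
    rw [this]
    exact Set.infinite_range_of_injective hom.injective
  · refine Set.infinite_of_forall_exists_gt fun K => ?_
    obtain ⟨k, hkK, hk⟩ := (Filter.frequently_atTop.1 (hf _ (Set.mem_image_of_mem _ hp))) (K + 1)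
    have hkK : K < k := hkK
    have ha := (hG p hp).1
    by_cases hg : Gap p.1 (fun k => decide (k ∈ Set.range o)) (n1 p k)
    · exact ⟨n1 p k, ⟨h1 p hp k, hg⟩, hkK.trans_le (h3 p hp k)⟩
    by_cases hg' : Gap p.1 (fun k => decide (k ∈ Set.range o)) (n2 p k)
    · exact ⟨n2 p k, ⟨h2 p hp k, hg'⟩, hkK.trans_le ((h3 p hp k).trans (h4 p hp k).le)⟩
    exfalso
    simp only [Gap] at hg hg'
    push Not at hg hg'
    obtain ⟨j1, hj1, hj1', hj1o⟩ := hg
    obtain ⟨j2, hj2, hj2', hj2o⟩ := hg'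
    obtain ⟨i1, rfl⟩ : j1 ∈ Set.range o := by simpa using hj1o
    obtain ⟨i2, rfl⟩ : j2 ∈ Set.range o := by simpa using hj2o
    have e1 : k ≤ o i1 := ((h3 p hp k).trans (ha.le_apply)).trans hj1
    have e2 : p.1 (n1 p k + 1) ≤ p.1 (n2 p k) := ha.monotone (h4 p hp k)
    have e3 : o i1 < o i2 := by omega
    have e4 : i1 + 1 ≤ i2 := hom.lt_iff_lt.1 e3
    have e5 : f (o i1) ≤ o i2 := by rw [← ho]; exact hom.monotone e4
    have e6 : f k ≤ f (o i1) := hfm.monotone e1
    omega

theorem exists_subset {x : C} (hx : {k | x k = true}.Infinite) {E : Set C} (hE : #E < continuum) :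
    ∃ y : C, {k | y k = true}.Infinite ∧ (∀ k, y k = true → x k = true) ∧ y ∉ E := by
  classical
  let e : ℕ → ℕ := Nat.nth (fun k => x k = true)
  have he : StrictMono e := Nat.nth_strictMono hx
  have hex (i : ℕ) : x (e i) = true := Nat.nth_mem_of_infinite hx i
  let y : C → C := fun s k => decide (∃ i : ℕ, k = e (2 * i + (s i).toNat))
  have hy : Function.Injective y := by
    intro s t hst
    funext i
    have h1 : y s (e (2 * i + (s i).toNat)) = true := by simp only [y, decide_eq_true_eq]; exact ⟨i, rfl⟩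
    rw [hst] at h1
    simp only [y, decide_eq_true_eq] at h1
    obtain ⟨j, hj⟩ := h1
    have h2 := he.injective hj
    have b1 := Bool.toNat_lt (s i)
    have b2 := Bool.toNat_lt (t j)
    have h3 : i = j := by omega
    subst h3
    have h4 : (s i).toNat = (t i).toNat := by omega
    revert h4
    cases s i <;> cases t i <;> simp
  by_contra hne
  push Not at hne
  have h5 : ∀ s, y s ∈ E := by
    intro s
    refine hne (y s) ?_ ?_
    · refine (Set.infinite_range_of_injective (f := fun i => e (2 * i + (s i).toNat)) ?_).mono ?_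
      · intro i j hij
        have h2 := he.injective hij
        have b1 := Bool.toNat_lt (s i)
        have b2 := Bool.toNat_lt (s j)
        omega
      · rintro _ ⟨i, rfl⟩
        simp only [y, Set.mem_ofPred_eq, decide_eq_true_eq]
        exact ⟨i, rfl⟩
    · intro k hk
      simp only [y, decide_eq_true_eq] at hk
      obtain ⟨i, rfl⟩ := hk
      exact hex _
  have h6 : #C ≤ #E := mk_le_of_injective (f := fun s => (⟨y s, h5 s⟩ : E)) fun s t h => hy (Subtype.ext_iff.1 h)
  have h7 : #C = continuum := by simp [C]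
  rw [h7] at h6
  exact absurd hE (not_lt.2 h6)

/-- recursion along a well-order -/
theorem wf_choice {I α : Type} [LinearOrder I] [WellFoundedLT I] [Inhabited α]
    (P : I → (I → α) → α → Prop)
    (loc : ∀ γ f f' y, (∀ β, β < γ → f β = f' β) → P γ f y → P γ f' y)
    (ex : ∀ γ f, ∃ y, P γ f y) : ∃ x : I → α, ∀ γ, P γ x (x γ) := by
  classical
  choose F hF using ex
  let G : (γ : I) → ((β : I) → β < γ → α) → α :=
    fun γ rec => F γ (fun β => if h : β < γ then rec β h else default)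
  let x : I → α := WellFounded.fix (wellFounded_lt (α := I)) G
  have hx (γ : I) : x γ = F γ (fun β => if β < γ then x β else default) := by
    show WellFounded.fix _ G γ = _
    rw [WellFounded.fix_eq]
    rfl
  refine ⟨x, fun γ => ?_⟩
  have := hF γ (fun β => if β < γ then x β else default)
  rw [← hx] at this
  exact loc γ _ _ _ (fun β hβ => if_pos hβ) this

end Pool.Agent.SF
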