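import Pool.Agent.Lib_helper14.SF.Base

/-!
MP_8d0d04_lc. The recursion of length `𝔠 = 𝔡`.
-/

set_option autoImplicit false

namespace Pool.Agent.SF

open Filter Set Cardinal

open Classical in
/-- the sequence of places -/
noncomputable def Af (c : Code) (F : Set C) : ℕ → ℕ :=
  if h : Good c F then (exists_seq h).choose else id

open Classical in
/-- the sequence of bounds of the indices -/
noncomputable def Jf (c : Code) (F : Set C) : ℕ → ℕ :=
  if h : Good c F then (exists_seq h).choose_spec.choose else 0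

theorem Af_spec {c : Code} {F : Set C} (h : Good c F) : StrictMono (Af c F) ∧
    ∀ n, ∃ i ∈ c n, idx i ≤ Jf c F n ∧ F ⊆ B i ∧ ∀ x, Gap (Af c F) x n → x ∈ B i := by
  rw [Af, dif_pos h, Jf, dif_pos h]
  exact (exists_seq h).choose_spec.choose_spec

open Classical in
/-- one function which is not dominated by the bounds for the finite subsets of `E` -/
noncomputable def Hf (c : Code) (E : Set C) : ℕ → ℕ :=
  if h : ∃ f : ℕ → ℕ, ∀ F : Finset C, (F : Set C) ⊆ E → {n | Jf c F n ≤ f n}.Infinite then h.choose else 0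

theorem Hf_spec (c : Code) {E : Set C} (hd : ℵ₀ < dominatingNumber) (hE : #E < dominatingNumber)
    (F : Finset C) (hF : (F : Set C) ⊆ E) : {n | Jf c F n ≤ Hf c E n}.Infinite := by
  classical
  have h : ∃ f : ℕ → ℕ, ∀ F : Finset C, (F : Set C) ⊆ E → {n | Jf c F n ≤ f n}.Infinite := by
    have h1 : #(Set.range fun F : Finset E => Jf c ((F.map (Function.Embedding.subtype _) : Finset C) : Set C)) <
        dominatingNumber := by
      refine (mk_range_le).trans_lt ?_
      rcases finite_or_infinite E with h | h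
      · exact (mk_lt_aleph0 (α := Finset E)).trans hd
      · rw [mk_finset_of_infinite]; exact hE
    obtain ⟨f, hf⟩ := exists_undom h1
    refine ⟨f, fun F hF => ?_⟩
    have h2 := hf _ ⟨F.subtype (· ∈ E), rfl⟩
    have h3 : (F.subtype (· ∈ E)).map (Function.Embedding.subtype _) = F := by
      ext x
      simp only [Finset.mem_map, Finset.mem_subtype, Function.Embedding.subtype_apply, Subtype.exists,
        exists_and_left, exists_prop, exists_eq_right_right, and_iff_left_iff_imp]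
      exact fun hx => hF hx
    beta_reduce at h2
    rw [h3] at h2
    rw [← Nat.frequently_atTop_iff_infinite]
    exact h2.mono fun n hn => hn.le
  rw [Hf, dif_pos h]
  exact h.choose_spec F hF

/-- the pool of numbers for the code `c`, the small set `E`, its finite subset `F` and the finite set
`F'` of later points -/
def Mset (c : Code) (E F F' : Set C) : Set ℕ :=
  {n | Jf c F n ≤ Hf c E n ∧ ∀ x ∈ F', Gap (Af c F) x n}

/-- the condition for the point number `γ` -/
def Pc {I : Type} [LinearOrder I] (code : I → Code) (γ : I) (f : I → C) (y : C) : Prop :=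
  {k | y k = true}.Infinite ∧ (∀ β, β < γ → y ≠ f β) ∧
    ∀ ξ, ξ ≤ γ → ∀ F : Finset I, (∀ β ∈ F, β < ξ) → ∀ F' : Finset I, (∀ β ∈ F', β < γ) →
      Good (code ξ) (f '' F) → (Mset (code ξ) (f '' Set.Iio ξ) (f '' F) (f '' F')).Infinite →
      {n | n ∈ Mset (code ξ) (f '' Set.Iio ξ) (f '' F) (f '' F') ∧ Gap (Af (code ξ) (f '' F)) y n}.Infinite

theorem Pc_loc {I : Type} [LinearOrder I] (code : I → Code) (γ : I) (f f' : I → C) (y : C)
    (h : ∀ β, β < γ → f β = f' β) (hP : Pc code γ f y) : Pc code γ f' y := by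
  obtain ⟨h1, h2, h3⟩ := hP
  refine ⟨h1, fun β hβ => by rw [← h β hβ]; exact h2 β hβ, fun ξ hξ F hF F' hF' hg hM => ?_⟩
  have e1 : f' '' F = f '' F := Set.image_congr fun β hβ => (h β ((hF β hβ).trans_le hξ)).symm
  have e2 : f' '' F' = f '' F' := Set.image_congr fun β hβ => (h β (hF' β hβ)).symm
  have e3 : f' '' Set.Iio ξ = f '' Set.Iio ξ :=
    Set.image_congr fun β (hβ : β < ξ) => (h β (hβ.trans_le hξ)).symm
  rw [e1, e2, e3] at hM ⊢
  rw [e1] at hg
  exact h3 ξ hξ F hF F' hF' hg hM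

theorem card_finset_lt {α : Type} (h : #α < continuum) : #(Finset α) < continuum := by
  rcases finite_or_infinite α with h1 | h1
  · exact (mk_lt_aleph0 (α := Finset α)).trans_le aleph0_le_continuum
  · rw [mk_finset_of_infinite]; exact h

theorem Pc_ex {I : Type} [LinearOrder I] (hI : ∀ i : I, #(Set.Iio i) < continuum)
    (hd : dominatingNumber = continuum) (code : I → Code) (γ : I) (f : I → C) : ∃ y, Pc code γ f y := by
  classical
  let tr : Finset (Set.Iio γ) → Set C := fun F => f '' ((F.map (Function.Embedding.subtype _) : Finset I) : Set I)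
  let G : Set ((ℕ → ℕ) × Set ℕ) :=
    {p | (p.2.Infinite ∧ StrictMono p.1) ∧ p ∈ Set.range fun t : (Set.Iic γ × Finset (Set.Iio γ)) × Finset (Set.Iio γ) =>
      ((Af (code t.1.1) (tr t.1.2), Mset (code t.1.1) (f '' Set.Iio t.1.1.1) (tr t.1.2) (tr t.2)) :
        (ℕ → ℕ) × Set ℕ)}
  have hIic : #(Set.Iic γ) < continuum := by
    have : (Set.Iic γ : Set I) = Set.Iio γ ∪ {γ} := by
      ext x; simp [le_iff_lt_or_eq]
    rw [this]
    refine (mk_union_le _ _).trans_lt (add_lt_of_lt aleph0_le_continuum (hI γ) ?_)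
    rw [mk_singleton]
    exact one_lt_aleph0.trans_le aleph0_le_continuum
  have hG : #G < continuum := by
    refine (mk_le_mk_of_subset (t := Set.range fun t : (Set.Iic γ × Finset (Set.Iio γ)) × Finset (Set.Iio γ) =>
      ((Af (code t.1.1) (tr t.1.2), Mset (code t.1.1) (f '' Set.Iio t.1.1.1) (tr t.1.2) (tr t.2)) :
        (ℕ → ℕ) × Set ℕ)) fun p hp => hp.2).trans_lt (mk_range_le.trans_lt ?_)
    simp only [mk_prod, lift_id]
    exact mul_lt_of_lt aleph0_le_continuum (mul_lt_of_lt aleph0_le_continuum hIic (card_finset_lt (hI γ)))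
      (card_finset_lt (hI γ))
  obtain ⟨x, hx, hxG⟩ := exists_gaps G (by rw [hd]; exact hG) fun p hp => ⟨hp.1.2, hp.1.1⟩
  obtain ⟨y, hy, hyx, hyE⟩ := exists_subset hx (E := f '' Set.Iio γ) (mk_image_le.trans_lt (hI γ))
  refine ⟨y, hy, fun β hβ h => hyE ⟨β, hβ, h.symm⟩, fun ξ hξ F hF F' hF' hg hM => ?_⟩
  have tr_eq (F : Finset I) (hF : ∀ β ∈ F, β < γ) : tr (F.subtype (· ∈ Set.Iio γ)) = f '' F := by
    have h3 : (F.subtype (· ∈ Set.Iio γ)).map (Function.Embedding.subtype _) = F := by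
      ext x
      simp only [Finset.mem_map, Finset.mem_subtype, Function.Embedding.subtype_apply, Subtype.exists,
        exists_and_left, exists_prop, exists_eq_right_right, and_iff_left_iff_imp]
      exact fun hx => hF x hx
    show f '' _ = _
    rw [h3]
  have hFγ : ∀ β ∈ F, β < γ := fun β hβ => (hF β hβ).trans_le hξ
  have hmem : ((Af (code ξ) (f '' F), Mset (code ξ) (f '' Set.Iio ξ) (f '' F) (f '' F')) :
      (ℕ → ℕ) × Set ℕ) ∈ G := by
    refine ⟨⟨hM, (Af_spec hg).1⟩, ⟨((⟨ξ, hξ⟩, F.subtype (· ∈ Set.Iio γ)), F'.subtype (· ∈ Set.Iio γ)), ?_⟩⟩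
    simp only [tr_eq F hFγ, tr_eq F' hF']
  refine (hxG _ hmem).mono fun n hn => ⟨hn.1, hn.2.mono hyx⟩

theorem exists_points {I : Type} [LinearOrder I] [WellFoundedLT I] (hI : ∀ i : I, #(Set.Iio i) < continuum)
    (hd : dominatingNumber = continuum) (code : I → Code) : ∃ x : I → C, ∀ γ, Pc code γ x (x γ) :=
  wf_choice (Pc code) (Pc_loc code) (Pc_ex hI hd code)

/-- the finite sets -/
def Q : Set C := {q | ∃ m, ∀ k, m ≤ k → q k = false}

/-- the property of the set `X` used in the proof, for one code -/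
theorem cover {I : Type} [LinearOrder I] (hI : ∀ i : I, #(Set.Iio i) < continuum)
    (hd : dominatingNumber = continuum) (code : I → Code) {x : I → C} (hx : ∀ γ, Pc code γ x (x γ))
    (ξ : I) (hgood : ∀ F : Finset C, (F : Set C) ⊆ Set.range x → Good (code ξ) F)
    (S : Finset C) (hS : (S : Set C) ⊆ Q ∪ Set.range x) :
    ∃ n, ∃ i ∈ code ξ n, idx i ≤ Hf (code ξ) (x '' Set.Iio ξ) n ∧ (S : Set C) ⊆ B i := by
  classical
  have hd0 : ℵ₀ < dominatingNumber := by rw [hd]; exact aleph0_lt_continuum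
  -- indices of the points
  have hinj : Function.Injective x := by
    intro β γ h
    by_contra hne
    rcases lt_or_gt_of_ne hne with h1 | h1
    · exact (hx γ).2.1 β h1 h.symm
    · exact (hx β).2.1 γ h1 h
  let K : Finset I := S.preimage x hinj.injOn
  have hK : ∀ β, β ∈ K ↔ x β ∈ S := fun β => Finset.mem_preimage
  let F : Finset I := K.filter (· < ξ)
  let F1 : Finset I := K.filter (ξ ≤ ·)
  have hFg : Good (code ξ) (x '' F) := by
    have := hgood (F.image x) (by
      intro y hy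
      obtain ⟨β, -, rfl⟩ := Finset.mem_image.1 hy
      exact ⟨β, rfl⟩)
    rwa [Finset.coe_image] at this
  have h0 : {n | Jf (code ξ) (x '' F) n ≤ Hf (code ξ) (x '' Set.Iio ξ) n}.Infinite := by
    have := Hf_spec (code ξ) hd0 (E := x '' Set.Iio ξ) (by rw [hd]; exact mk_image_le.trans_lt (hI ξ))
      (F.image x) (by
        intro y hy
        obtain ⟨β, hβ, rfl⟩ := Finset.mem_image.1 hy
        exact ⟨β, (Finset.mem_filter.1 hβ).2, rfl⟩)
    rwa [Finset.coe_image] at this
  have h1 : ∀ F' : Finset I, (∀ β ∈ F', ξ ≤ β) →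
      (Mset (code ξ) (x '' Set.Iio ξ) (x '' F) (x '' F')).Infinite := by
    intro F'
    induction F' using Finset.induction_on_max with
    | empty =>
      intro _
      refine h0.mono fun n hn => ⟨hn, ?_⟩
      simp
    | insert γ s hs ih =>
      intro hξ
      have hγ : ξ ≤ γ := hξ γ (Finset.mem_insert_self _ _)
      have h2 := (hx γ).2.2 ξ hγ F (fun β hβ => (Finset.mem_filter.1 hβ).2) s hs hFg
        (ih fun β hβ => hξ β (Finset.mem_insert_of_mem hβ))
      refine h2.mono fun n hn => ⟨hn.1.1, ?_⟩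
      rintro _ ⟨β, hβ, rfl⟩
      rcases Finset.mem_insert.1 (Finset.mem_coe.1 hβ) with h3 | h3
      · rw [h3]; exact hn.2
      · exact hn.1.2 _ ⟨β, h3, rfl⟩
  have h2 := h1 F1 fun β hβ => (Finset.mem_filter.1 hβ).2
  -- the finite sets
  have hm : ∃ m, ∀ q ∈ S, q ∈ Q → ∀ k, m ≤ k → q k = false := by
    have : ∀ q ∈ S, ∃ m, q ∈ Q → ∀ k, m ≤ k → q k = false := by
      intro q _
      by_cases hq : q ∈ Q
      · obtain ⟨m, hm⟩ := hq
        exact ⟨m, fun _ => hm⟩
      · exact ⟨0, fun h => absurd h hq⟩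
    choose! m hm using this
    exact ⟨S.sup m, fun q hq hqQ k hk => hm q hq hqQ k ((Finset.le_sup hq).trans hk)⟩
  obtain ⟨m, hm⟩ := hm
  obtain ⟨n, hn, hmn⟩ := h2.exists_gt m
  obtain ⟨i, hi, hiJ, hiF, hiG⟩ := (Af_spec hFg).2 n
  refine ⟨n, i, hi, hiJ.trans hn.1, ?_⟩
  intro y hy
  rcases hS hy with hyQ | ⟨β, rfl⟩
  · refine hiG y fun k hk _ => hm y hy hyQ k ?_
    exact hmn.le.trans (((Af_spec hFg).1.le_apply).trans hk)
  · rcases lt_or_ge β ξ with hβ | hβ
    · exact hiF ⟨β, Finset.mem_filter.2 ⟨(hK β).2 hy, hβ⟩, rfl⟩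
    · exact hiG _ (hn.2 _ ⟨β, Finset.mem_filter.2 ⟨(hK β).2 hy, hβ⟩, rfl⟩)

end Pool.Agent.SF
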