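import Pool.Agent.Lib_helper14.SF.Rec

/-!
MP_8d0d04_lc. A recursion of length `𝔡` (in ZFC): late points have common gaps.
-/

set_option autoImplicit false

namespace Pool.Agent.SF

open Filter Set Cardinal

theorem exists_dominating :
    ∃ D : Set (ℕ → ℕ), #D = dominatingNumber ∧ ∀ g : ℕ → ℕ, ∃ f ∈ D, ∀ᶠ n in atTop, g n ≤ f n := by
  have hne : {κ : Cardinal.{0} | ∃ D : Set (ℕ → ℕ), #D = κ ∧
      ∀ g : ℕ → ℕ, ∃ f ∈ D, ∀ᶠ n in atTop, g n ≤ f n}.Nonempty :=
    ⟨_, Set.univ, rfl, fun g => ⟨g, Set.mem_univ _, Eventually.of_forall fun n => le_rfl⟩⟩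
  exact csInf_mem hne

theorem dominatingNumber_le_continuum : dominatingNumber ≤ continuum := by
  obtain ⟨D, hD, -⟩ := exists_dominating
  rw [← hD]
  calc #D ≤ #(ℕ → ℕ) := mk_set_le _
    _ = continuum := by simp

theorem aleph0_le_dominatingNumber : ℵ₀ ≤ dominatingNumber := by
  obtain ⟨D, hD, hdom⟩ := exists_dominating
  rw [← hD]
  by_contra hlt
  have hfin : D.Finite := by
    rw [← Cardinal.lt_aleph0_iff_set_finite]
    exact not_le.1 hlt
  obtain ⟨f, hf, hfg⟩ := hdom fun n => ∑ g ∈ hfin.toFinset, g n + 1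
  obtain ⟨n, hn⟩ := hfg.exists
  have h1 : f n ≤ ∑ g ∈ hfin.toFinset, g n :=
    Finset.single_le_sum (f := fun g : ℕ → ℕ => g n) (fun _ _ => Nat.zero_le _) (hfin.mem_toFinset.2 hf)
  omega

/-- the sequence of places of a function -/
def bseq (f : ℕ → ℕ) : ℕ → ℕ
  | 0 => 0
  | m + 1 => max (bseq f m + 1) (f (bseq f m))

theorem bseq_strictMono (f : ℕ → ℕ) : StrictMono (bseq f) :=
  strictMono_nat_of_lt_succ fun m => by
    show bseq f m < max (bseq f m + 1) (f (bseq f m))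
    omega

/-- a gap of a large function is a gap of `a` at a place in `N` -/
theorem exists_bseq {a : ℕ → ℕ} (ha : StrictMono a) {N : Set ℕ} (hN : N.Infinite) :
    ∃ ψ : ℕ → ℕ, ∀ f : ℕ → ℕ, (∀ᶠ k in atTop, ψ k ≤ f k) → ∀ᶠ m in atTop, ∃ n ∈ N, m ≤ n ∧
      ∀ x : C, Gap (bseq f) x m → Gap a x n := by
  choose n hn hkn using exists_next hN
  refine ⟨fun k => a (n k + 1), fun f hf => ?_⟩
  have h1 : ∀ᶠ m in atTop, a (n (bseq f m) + 1) ≤ f (bseq f m) :=
    (bseq_strictMono f).tendsto_atTop.eventually hf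
  refine h1.mono fun m hm => ⟨n (bseq f m), hn _, ((bseq_strictMono f).le_apply).trans (hkn _), ?_⟩
  intro x hx k hk1 hk2
  refine hx k ?_ ?_
  · exact ((hkn _).trans ha.le_apply).trans hk1
  · refine (hk2.trans_le hm).trans_le ?_
    show f (bseq f m) ≤ max (bseq f m + 1) (f (bseq f m))
    omega

/-- the places where the points in `F` have a common gap -/
def Nset (f : ℕ → ℕ) (F : Set C) : Set ℕ := {n | ∀ x ∈ F, Gap (bseq f) x n}

/-- the condition for the point number `γ` -/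
def Pd {I : Type} [LinearOrder I] (φ : I → ℕ → ℕ) (γ : I) (f : I → C) (y : C) : Prop :=
  {k | y k = true}.Infinite ∧ (∀ β, β < γ → y ≠ f β) ∧
    ∀ ξ, ξ ≤ γ → ∀ F' : Finset I, (∀ β ∈ F', β < γ) →
      (Nset (φ ξ) (f '' F')).Infinite → {n | n ∈ Nset (φ ξ) (f '' F') ∧ Gap (bseq (φ ξ)) y n}.Infinite

theorem Pd_loc {I : Type} [LinearOrder I] (φ : I → ℕ → ℕ) (γ : I) (f f' : I → C) (y : C)
    (h : ∀ β, β < γ → f β = f' β) (hP : Pd φ γ f y) : Pd φ γ f' y := by
  obtain ⟨h1, h2, h3⟩ := hP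
  refine ⟨h1, fun β hβ => by rw [← h β hβ]; exact h2 β hβ, fun ξ hξ F' hF' hM => ?_⟩
  have e2 : f' '' F' = f '' F' := Set.image_congr fun β hβ => (h β (hF' β hβ)).symm
  rw [e2] at hM ⊢
  exact h3 ξ hξ F' hF' hM

theorem card_finset_lt' {α : Type} (h : #α < dominatingNumber) : #(Finset α) < dominatingNumber := by
  rcases finite_or_infinite α with h1 | h1
  · exact (mk_lt_aleph0 (α := Finset α)).trans_le aleph0_le_dominatingNumber
  · rw [mk_finset_of_infinite]; exact h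

theorem Pd_ex {I : Type} [LinearOrder I] (hI : ∀ i : I, #(Set.Iio i) < dominatingNumber)
    (φ : I → ℕ → ℕ) (γ : I) (f : I → C) : ∃ y, Pd φ γ f y := by
  classical
  let tr : Finset (Set.Iio γ) → Set C := fun F => f '' ((F.map (Function.Embedding.subtype _) : Finset I) : Set I)
  let G : Set ((ℕ → ℕ) × Set ℕ) :=
    {p | (p.2.Infinite ∧ StrictMono p.1) ∧ p ∈ Set.range fun t : Set.Iic γ × Finset (Set.Iio γ) =>
      ((bseq (φ t.1), Nset (φ t.1) (tr t.2)) : (ℕ → ℕ) × Set ℕ)}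
  have hIic : #(Set.Iic γ) < dominatingNumber := by
    have : (Set.Iic γ : Set I) = Set.Iio γ ∪ {γ} := by
      ext x; simp [le_iff_lt_or_eq]
    rw [this]
    refine (mk_union_le _ _).trans_lt (add_lt_of_lt aleph0_le_dominatingNumber (hI γ) ?_)
    rw [mk_singleton]
    exact one_lt_aleph0.trans_le aleph0_le_dominatingNumber
  have hG : #G < dominatingNumber := by
    refine (mk_le_mk_of_subset (t := Set.range fun t : Set.Iic γ × Finset (Set.Iio γ) =>
      ((bseq (φ t.1), Nset (φ t.1) (tr t.2)) : (ℕ → ℕ) × Set ℕ)) fun p hp => hp.2).trans_lt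
      (mk_range_le.trans_lt ?_)
    simp only [mk_prod, lift_id]
    exact mul_lt_of_lt aleph0_le_dominatingNumber hIic (card_finset_lt' (hI γ))
  obtain ⟨x, hx, hxG⟩ := exists_gaps G hG fun p hp => ⟨hp.1.2, hp.1.1⟩
  obtain ⟨y, hy, hyx, hyE⟩ := exists_subset hx (E := f '' Set.Iio γ)
    (mk_image_le.trans_lt ((hI γ).trans_le dominatingNumber_le_continuum))
  refine ⟨y, hy, fun β hβ h => hyE ⟨β, hβ, h.symm⟩, fun ξ hξ F' hF' hM => ?_⟩
  have tr_eq (F : Finset I) (hF : ∀ β ∈ F, β < γ) : tr (F.subtype (· ∈ Set.Iio γ)) = f '' F := by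
    have h3 : (F.subtype (· ∈ Set.Iio γ)).map (Function.Embedding.subtype _) = F := by
      ext x
      simp only [Finset.mem_map, Finset.mem_subtype, Function.Embedding.subtype_apply, Subtype.exists,
        exists_and_left, exists_prop, exists_eq_right_right, and_iff_left_iff_imp]
      exact fun hx => hF x hx
    show f '' _ = _
    rw [h3]
  have hmem : ((bseq (φ ξ), Nset (φ ξ) (f '' F')) : (ℕ → ℕ) × Set ℕ) ∈ G := by
    refine ⟨⟨hM, bseq_strictMono _⟩, ⟨(⟨ξ, hξ⟩, F'.subtype (· ∈ Set.Iio γ)), ?_⟩⟩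
    simp only [tr_eq F' hF']
  exact (hxG _ hmem).mono fun n hn => ⟨hn.1, hn.2.mono hyx⟩

theorem exists_points' {I : Type} [LinearOrder I] [WellFoundedLT I]
    (hI : ∀ i : I, #(Set.Iio i) < dominatingNumber) (φ : I → ℕ → ℕ) :
    ∃ x : I → C, ∀ γ, Pd φ γ x (x γ) :=
  wf_choice (Pd φ) (Pd_loc φ) (Pd_ex hI φ)

theorem late {I : Type} [LinearOrder I] {φ : I → ℕ → ℕ} {x : I → C} (hx : ∀ γ, Pd φ γ x (x γ)) (ξ : I)
    (F' : Finset I) : (∀ β ∈ F', ξ ≤ β) → (Nset (φ ξ) (x '' F')).Infinite := by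
  classical
  induction F' using Finset.induction_on_max with
  | empty =>
    intro _
    have : Nset (φ ξ) (x '' ((∅ : Finset I) : Set I)) = Set.univ := by
      ext n; simp [Nset]
    rw [this]
    exact Set.infinite_univ
  | insert γ s hs ih =>
    intro hξ
    have h2 := (hx γ).2.2 ξ (hξ γ (Finset.mem_insert_self _ _)) s hs
      (ih fun β hβ => hξ β (Finset.mem_insert_of_mem hβ))
    refine h2.mono fun n hn => ?_
    rintro _ ⟨β, hβ, rfl⟩
    rcases Finset.mem_insert.1 (Finset.mem_coe.1 hβ) with h3 | h3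
    · rw [h3]; exact hn.2
    · exact hn.1 _ ⟨β, h3, rfl⟩

/-- the index set of the recursion -/
abbrev Idx : Type := dominatingNumber.ord.ToType

theorem mk_Idx : #Idx = dominatingNumber := by simp [Idx]

theorem mk_Iio_Idx (i : Idx) : #(Set.Iio i) < dominatingNumber := by simpa [Idx] using mk_Iio_lt i

theorem cof_Idx : Order.cof Idx = dominatingNumber.ord.cof := Ordinal.cof_toType _

/-- fewer than `cf(𝔡)` indices are bounded -/
theorem exists_bound {α : Type} (h : #α < dominatingNumber.ord.cof) (f : α → Idx) :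
    ∃ b : Idx, ∀ a, f a < b := by
  have h1 : ¬ IsCofinal (Set.range f) := fun hc => by
    have h2 := Order.cof_le hc
    rw [cof_Idx] at h2
    exact absurd (h2.trans mk_range_le) (not_le.2 h)
  unfold IsCofinal at h1
  push Not at h1
  obtain ⟨b, hb⟩ := h1
  exact ⟨b, fun a => hb _ ⟨a, rfl⟩⟩

theorem aleph0_lt_cof : ℵ₀ < dominatingNumber.ord.cof := by
  classical
  rw [← cof_Idx]
  by_contra hlt
  have hle : Order.cof Idx ≤ ℵ₀ := not_lt.1 hlt
  obtain ⟨s, hs, hsc⟩ := Order.exists_cof_eq Idx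
  obtain ⟨D, hD, hdom⟩ := exists_dominating
  have hc : s.Countable := by rw [← Cardinal.le_aleph0_iff_set_countable, hsc]; exact hle
  have hIne : Nonempty Idx := by
    rw [← Cardinal.mk_ne_zero_iff, mk_Idx]
    exact (aleph0_pos.trans_le aleph0_le_dominatingNumber).ne'
  have hsne : s.Nonempty := by
    obtain ⟨i⟩ := hIne
    obtain ⟨j, hj, -⟩ := hs i
    exact ⟨j, hj⟩
  obtain ⟨f, hf⟩ := hc.exists_eq_range hsne
  obtain ⟨φ⟩ : Nonempty (Idx ≃ D) := Cardinal.eq.1 (by rw [mk_Idx, hD])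
  have hlow : ∀ m : ℕ, ∃ g : ℕ → ℕ, ∀ ζ : Idx, ζ ≤ f m → ∃ᶠ n in atTop, (φ ζ : ℕ → ℕ) n < g n := by
    intro m
    have hS : #((fun ζ : Idx => (φ ζ : ℕ → ℕ)) '' Set.Iic (f m)) < dominatingNumber := by
      refine mk_image_le.trans_lt ?_
      have : (Set.Iic (f m) : Set Idx) = Set.Iio (f m) ∪ {f m} := by
        ext x; simp [le_iff_lt_or_eq]
      rw [this]
      refine (mk_union_le _ _).trans_lt (add_lt_of_lt aleph0_le_dominatingNumber (mk_Iio_Idx _) ?_)
      rw [mk_singleton]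
      exact one_lt_aleph0.trans_le aleph0_le_dominatingNumber
    obtain ⟨g, hg⟩ := exists_undom hS
    exact ⟨g, fun ζ hζ => hg _ ⟨ζ, hζ, rfl⟩⟩
  choose g hg using hlow
  obtain ⟨u, hu, hgu⟩ := hdom fun n => ∑ m ∈ Finset.range (n + 1), g m n
  obtain ⟨ζ, hζ⟩ := φ.surjective ⟨u, hu⟩
  obtain ⟨j, hj, hζj⟩ := hs ζ
  rw [hf] at hj
  obtain ⟨m, rfl⟩ := hj
  have h1 := hg m ζ hζj
  rw [hζ] at h1
  obtain ⟨n, hn, hn1, hn2⟩ := (h1.and_eventually (hgu.and (eventually_ge_atTop m))).exists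
  have h2 : g m n ≤ ∑ m ∈ Finset.range (n + 1), g m n :=
    Finset.single_le_sum (f := fun m => g m n) (fun _ _ => Nat.zero_le _)
      (Finset.mem_range.2 (by omega))
  have h3 : u n < g m n := hn
  omega

theorem card_finset_lt_cof {α : Type} (h : #α < dominatingNumber.ord.cof) :
    #(Finset α) < dominatingNumber.ord.cof := by
  rcases finite_or_infinite α with h1 | h1
  · exact (mk_lt_aleph0 (α := Finset α)).trans aleph0_lt_cof
  · rw [mk_finset_of_infinite]; exact h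

/-- one large function for the gaps of `a` at the places in `N` -/
theorem exists_index {φ : Idx → ℕ → ℕ} (hφ : ∀ g : ℕ → ℕ, ∃ ξ, ∀ᶠ n in atTop, g n ≤ φ ξ n)
    {a : ℕ → ℕ} (ha : StrictMono a) {N : Set ℕ} (hN : N.Infinite) :
    ∃ ζ, ∀ᶠ m in atTop, ∃ n ∈ N, m ≤ n ∧ ∀ x : C, Gap (bseq (φ ζ)) x m → Gap a x n := by
  obtain ⟨ψ, hψ⟩ := exists_bseq ha hN
  obtain ⟨ζ, hζ⟩ := hφ ψ
  exact ⟨ζ, hψ _ hζ⟩

section

variable {φ : Idx → ℕ → ℕ} {x : Idx → C} {c : Code}

/-- the step: the finite subsets of a small set together with the points from `ξ'` on -/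
theorem exists_next_index (hφ : ∀ g : ℕ → ℕ, ∃ ξ, ∀ᶠ n in atTop, g n ≤ φ ξ n) (T : Set C)
    (hT : #T < dominatingNumber.ord.cof) (hg : ∀ F : Finset C, (F : Set C) ⊆ T → Good c F) (ξ : Idx) :
    ∃ ξ', ξ ≤ ξ' ∧ ∀ F : Finset C, (F : Set C) ⊆ T → ∃ ζ ≤ ξ', ∀ᶠ m in atTop,
      ∃ n ∈ {n | Jf c F n ≤ Hf c T n}, m ≤ n ∧ ∀ y : C, Gap (bseq (φ ζ)) y m → Gap (Af c F) y n := by
  classical
  have hT' : #T < dominatingNumber := hT.trans_le (by
    rw [← cof_Idx]; exact (Order.cof_le_cardinalMk _).trans mk_Idx.le)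
  have hd0 : ℵ₀ < dominatingNumber := aleph0_lt_cof.trans_le (by
    rw [← cof_Idx]; exact (Order.cof_le_cardinalMk _).trans mk_Idx.le)
  have h1 : ∀ F : Finset C, (F : Set C) ⊆ T → ∃ ζ : Idx, ∀ᶠ m in atTop,
      ∃ n ∈ {n | Jf c F n ≤ Hf c T n}, m ≤ n ∧ ∀ y : C, Gap (bseq (φ ζ)) y m → Gap (Af c F) y n :=
    fun F hF => exists_index hφ (Af_spec (hg F hF)).1 (Hf_spec c hd0 hT' F hF)
  have : Nonempty Idx := ⟨ξ⟩
  choose! ζ hζ using h1
  obtain ⟨b, hb⟩ := exists_bound (α := Finset T) (card_finset_lt_cof hT)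
    (fun F => ζ (F.map (Function.Embedding.subtype _)))
  refine ⟨max ξ b, le_max_left _ _, fun F hF => ⟨ζ F, ?_, hζ F hF⟩⟩
  have h3 : (F.subtype (· ∈ T)).map (Function.Embedding.subtype _) = F := by
    ext y
    simp only [Finset.mem_map, Finset.mem_subtype, Function.Embedding.subtype_apply, Subtype.exists,
      exists_and_left, exists_prop, exists_eq_right_right, and_iff_left_iff_imp]
    exact fun hy => hF hy
  have h4 := hb (F.subtype (· ∈ T))
  rw [h3] at h4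
  exact h4.le.trans (le_max_right _ _)

/-- The combinatorial core. `Y` is a space with an embedding `p` into the Cantor space whose image is
`Q ∪ range x`, `r` is the rank. For a sequence of families `𝒰` with the code property, a set `E` with few
points of small rank: one selection for the points of small rank, and for the finite subsets of
`E` together with the points of large rank. -/
theorem selects (hφ : ∀ g : ℕ → ℕ, ∃ ξ, ∀ᶠ n in atTop, g n ≤ φ ξ n) (hx : ∀ γ, Pd φ γ x (x γ))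
    {Y : Type} {p : Y → C} {r : Y → Idx}
    (hr : ∀ y, x (r y) = p y ∨ ∀ i, r y ≤ i) (hsmall : ∀ ξ, #{y | r y < ξ} < dominatingNumber)
    (hg : ∀ F : Finset Y, Good c (p '' F)) (E : Set Y)
    (hE : ∀ ξ, #{y | y ∈ E ∧ r y < ξ} < dominatingNumber.ord.cof) :
    ∃ (ξ : Idx) (h : ℕ → ℕ),
      (∀ F : Finset Y, (∀ y ∈ F, r y < ξ) → ∃ n, ∃ i ∈ c n, idx i ≤ h n ∧ ∀ y ∈ F, p y ∈ B i) ∧
      (∀ F : Finset Y, (∀ y ∈ F, ξ ≤ r y ∨ y ∈ E) → ∃ n, ∃ i ∈ c n, idx i ≤ h n ∧ ∀ y ∈ F, p y ∈ B i) := by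
  classical
  have hcd : dominatingNumber.ord.cof ≤ dominatingNumber := by
    rw [← cof_Idx]; exact (Order.cof_le_cardinalMk _).trans mk_Idx.le
  have hd0 : ℵ₀ < dominatingNumber := aleph0_lt_cof.trans_le hcd
  -- finite subsets of images
  have hlift : ∀ (S : Set Y) (F : Finset C), (F : Set C) ⊆ p '' S → ∃ F' : Finset Y, (F' : Set Y) ⊆ S ∧
      p '' F' = F := by
    intro S F hF
    obtain ⟨F', hF', he⟩ := Finset.subset_set_image_iff.1 hF
    exact ⟨F', hF', by rw [← he, Finset.coe_image]⟩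
  have hgood : ∀ (S : Set Y) (F : Finset C), (F : Set C) ⊆ p '' S → Good c F := by
    intro S F hF
    obtain ⟨F', -, he⟩ := hlift S F hF
    rw [← he]
    exact hg F'
  let T : Idx → Set C := fun ξ => p '' {y | y ∈ E ∧ r y < ξ}
  have hT : ∀ ξ, #(T ξ) < dominatingNumber.ord.cof := fun ξ => mk_image_le.trans_lt (hE ξ)
  choose nx hnx hnx' using fun ξ => exists_next_index (c := c) hφ (T ξ) (hT ξ) (fun F hF => hgood _ F hF) ξ
  -- the layers
  have hIne : Nonempty Idx := by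
    rw [← Cardinal.mk_ne_zero_iff, mk_Idx]
    exact (aleph0_pos.trans_le aleph0_le_dominatingNumber).ne'
  obtain ⟨i₀⟩ := hIne
  obtain ⟨b₀, hb₀⟩ := exists_bound (α := Unit) (by
    rw [Cardinal.mk_unit]; exact one_lt_aleph0.trans aleph0_lt_cof) (fun _ => i₀)
  obtain ⟨l, hl0, hl⟩ : ∃ l : ℕ → Idx, l 0 = b₀ ∧ ∀ m, l (m + 1) = nx (l m) :=
    ⟨fun m => Nat.rec b₀ (fun _ j => nx j) m, rfl, fun _ => rfl⟩
  have hlm : Monotone l := monotone_nat_of_le_succ fun m => by rw [hl]; exact hnx _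
  obtain ⟨ξ, hξ⟩ := exists_bound (α := ℕ) (by rw [Cardinal.mk_nat]; exact aleph0_lt_cof) l
  -- the selector
  let S : Set C := p '' {y | r y < ξ}
  have hS : #S < dominatingNumber := mk_image_le.trans_lt (hsmall ξ)
  let h : ℕ → ℕ := fun n => max (Hf c S n) ((Finset.range (n + 1)).sup fun m => Hf c (T (l m)) n)
  refine ⟨ξ, h, fun F hF => ?_, fun F hF => ?_⟩
  · have hFS : ((F.image p : Finset C) : Set C) ⊆ S := by
      intro z hz
      obtain ⟨y, hy, rfl⟩ := Finset.mem_image.1 (Finset.mem_coe.1 hz)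
      exact ⟨y, hF y hy, rfl⟩
    obtain ⟨n, hn⟩ := (Hf_spec c hd0 hS (F.image p) hFS).nonempty
    obtain ⟨i, hi, hiJ, hiF, -⟩ := (Af_spec (hgood _ _ hFS)).2 n
    refine ⟨n, i, hi, (hiJ.trans hn).trans (le_max_left _ _), fun y hy => hiF ?_⟩
    exact Finset.mem_coe.2 (Finset.mem_image_of_mem _ hy)
  -- a layer without points of `F`
  obtain ⟨m, hm⟩ : ∃ m : ℕ, ∀ y ∈ F, r y < l m ∨ l (m + 1) ≤ r y := by
    by_contra hne
    push Not at hne
    choose y hy hy1 hy2 using hne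
    have hinj : Function.Injective y := by
      intro m m' h
      by_contra hmm
      rcases lt_or_gt_of_ne hmm with h1 | h1
      · have h2 : l (m + 1) ≤ l m' := hlm h1
        have h3 := (hy2 m).trans_le (h2.trans (hy1 m'))
        rw [h] at h3
        exact lt_irrefl _ h3
      · have h2 : l (m' + 1) ≤ l m := hlm h1
        have h3 := (hy2 m').trans_le (h2.trans (hy1 m))
        rw [h] at h3
        exact lt_irrefl _ h3
    exact (Set.infinite_range_of_injective hinj) (F.finite_toSet.subset (by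
      rintro _ ⟨m, rfl⟩; exact hy m))
  let F0 : Finset Y := F.filter (fun y : Y => ¬ l m ≤ r y)
  let K : Finset Idx := (F.filter (fun y : Y => l (m + 1) ≤ r y)).image r
  have hF0 : ((F0.image p : Finset C) : Set C) ⊆ T (l m) := by
    intro z hz
    obtain ⟨y, hy, rfl⟩ := Finset.mem_image.1 (Finset.mem_coe.1 hz)
    obtain ⟨hyF, hyl'⟩ := Finset.mem_filter.1 hy
    have hyl : r y < l m := not_le.1 hyl'
    refine ⟨y, ⟨?_, hyl⟩, rfl⟩
    rcases hF y hyF with h1 | h1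
    · exact absurd (hyl.trans (hξ m)) (not_lt.2 h1)
    · exact h1
  obtain ⟨ζ, hζ, hζm⟩ := hnx' (l m) (F0.image p) hF0
  have hlate := late hx ζ K (by
    intro β hβ
    obtain ⟨y, hy, rfl⟩ := Finset.mem_image.1 hβ
    exact (hζ.trans (hl m).ge).trans (Finset.mem_filter.1 hy).2)
  obtain ⟨m', hm', hm'2, n, hn, hmn, hGap⟩ :=
    (((Nat.frequently_atTop_iff_infinite).2 hlate).and_eventually ((eventually_ge_atTop m).and hζm)).exists
  obtain ⟨i, hi, hiJ, hiF, hiG⟩ := (Af_spec (hgood _ _ hF0)).2 n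
  have hle : Hf c (T (l m)) n ≤ h n :=
    (Finset.le_sup (f := fun m => Hf c (T (l m)) n) (Finset.mem_range.2 (by omega))).trans (le_max_right _ _)
  refine ⟨n, i, hi, (hiJ.trans hn).trans hle, fun y hy => ?_⟩
  rcases hm y hy with h1 | h1
  · exact hiF (Finset.mem_coe.2 (Finset.mem_image_of_mem _ (Finset.mem_filter.2 ⟨hy, not_le.2 h1⟩)))
  · have h2 : x (r y) = p y := by
      rcases hr y with h3 | h3
      · exact h3
      · have h4 : l 0 ≤ l (m + 1) := hlm (Nat.zero_le (m + 1))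
        rw [hl0] at h4
        exact absurd (hb₀ ()) (not_lt.2 ((h4.trans h1).trans (h3 i₀)))
    rw [← h2]
    refine hiG _ (hGap _ (hm' _ ⟨r y, ?_, rfl⟩))
    exact Finset.mem_coe.2 (Finset.mem_image_of_mem _ (Finset.mem_filter.2 ⟨hy, h1⟩))

end

end Pool.Agent.SF
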